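import Mathlib

/-!
# MP_33f3d1_co : minimal relating retracts need not be order-isomorphic

The poset `X = {0,1,2,3,4}` with `0 < 2`, `0 < 3`, `1 < 3` and `4` on top has the two minimal
relating retracts `{4}` and `{0,3}`.
-/

namespace Pool.Agent.Results.MP_33f3d1_co.FivePoint

/-- `r` is a relating retraction of the poset `X` onto the subset `Y`: it is order preserving,
takes values in `Y`, fixes every point of `Y`, and `x`, `r x` are comparable for every
`x ∉ Y`. -/
structure IsRelatingRetraction {X : Type} [PartialOrder X] (Y : Set X) (r : X → X) : Prop where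
  mono : Monotone r
  mem : ∀ x, r x ∈ Y
  fix : ∀ y ∈ Y, r y = y
  rel : ∀ x, x ∉ Y → x ≤ r x ∨ r x ≤ x

/-- `Y` is a relating retract of `X`: it admits a relating retraction of `X` onto it. -/
def IsRelatingRetract {X : Type} [PartialOrder X] (Y : Set X) : Prop :=
  ∃ r : X → X, IsRelatingRetraction Y r

/-- `Y` is a minimal relating retract of `X`: it is a relating retract of `X`, and no proper
nonempty subset of `Y` is a relating retract of `X`. -/
def IsMinimalRelatingRetract {X : Type} [PartialOrder X] (Y : Set X) : Prop :=
  IsRelatingRetract Y ∧ ∀ Z : Set X, Z ⊂ Y → Z.Nonempty → ¬ IsRelatingRetract Z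

/-- The underlying set of the example. -/
inductive P5 : Type
  | p0 | p1 | p2 | p3 | p4
  deriving DecidableEq

open P5

instance : Fintype P5 := ⟨{p0, p1, p2, p3, p4}, by intro x; cases x <;> decide⟩

/-- The order: `p0 < p2`, `p0 < p3`, `p1 < p3`, and `p4` is the largest element. -/
def le5 : P5 → P5 → Bool
  | _, p4 => true
  | p0, p0 => true
  | p1, p1 => true
  | p2, p2 => true
  | p3, p3 => true
  | p0, p2 => true
  | p0, p3 => true
  | p1, p3 => true
  | _, _ => false

instance : PartialOrder P5 where
  le a b := le5 a b = true
  le_refl := by decide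
  le_trans := by decide
  le_antisymm := by decide

instance : DecidableRel (fun a b : P5 => a ≤ b) := fun a b =>
  inferInstanceAs (Decidable (le5 a b = true))

/-- The constant map onto the top element. -/
def rTop : P5 → P5 := fun _ => p4

/-- The retraction onto the chain `{p0, p3}`. -/
def rChain : P5 → P5
  | p0 => p0
  | p1 => p3
  | p2 => p0
  | p3 => p3
  | p4 => p3

theorem top_retract : IsRelatingRetract ({p4} : Set P5) := by
  refine ⟨rTop, ⟨?_, ?_, ?_, ?_⟩⟩
  · intro a b _
    exact le_refl _
  · intro x
    exact Set.mem_singleton _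
  · intro y hy
    exact (Set.mem_singleton_iff.mp hy).symm
  · intro x _
    left
    show le5 x p4 = true
    cases x <;> rfl

theorem chain_retract : IsRelatingRetract ({p0, p3} : Set P5) := by
  refine ⟨rChain, ⟨?_, ?_, ?_, ?_⟩⟩
  · have h : ∀ a b : P5, le5 a b = true → le5 (rChain a) (rChain b) = true := by decide
    intro a b hab
    exact h a b hab
  · intro x
    cases x <;> simp [rChain]
  · intro y hy
    rcases hy with rfl | hy
    · rfl
    · rw [Set.mem_singleton_iff.mp hy]; rfl
  · intro x _
    have h : ∀ a : P5, le5 a (rChain a) = true ∨ le5 (rChain a) a = true := by decide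
    exact h x

theorem not_retract_zero : ¬ IsRelatingRetract ({p0} : Set P5) := by
  rintro ⟨r, hr⟩
  have h1 : r p1 = p0 := Set.mem_singleton_iff.mp (hr.mem p1)
  have h2 := hr.rel p1 (by simp)
  rw [h1] at h2
  revert h2
  decide

theorem not_retract_three : ¬ IsRelatingRetract ({p3} : Set P5) := by
  rintro ⟨r, hr⟩
  have h1 : r p2 = p3 := Set.mem_singleton_iff.mp (hr.mem p2)
  have h2 := hr.rel p2 (by simp)
  rw [h1] at h2
  revert h2
  decide

theorem top_minimal : IsMinimalRelatingRetract ({p4} : Set P5) := by
  refine ⟨top_retract, ?_⟩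
  intro Z hZ hne
  exfalso
  obtain ⟨hsub, hnot⟩ := hZ
  apply hnot
  obtain ⟨z, hz⟩ := hne
  have : z = p4 := Set.mem_singleton_iff.mp (hsub hz)
  subst this
  exact Set.singleton_subset_iff.mpr hz

theorem chain_minimal : IsMinimalRelatingRetract ({p0, p3} : Set P5) := by
  refine ⟨chain_retract, ?_⟩
  intro Z hZ hne hret
  obtain ⟨hsub, hnot⟩ := hZ
  by_cases h0 : p0 ∈ Z
  · by_cases h3 : p3 ∈ Z
    · apply hnot
      intro x hx
      rcases hx with rfl | hx
      · exact h0
      · rw [Set.mem_singleton_iff.mp hx]; exact h3
    · have hZ : Z = {p0} := by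
        ext x
        constructor
        · intro hx
          rcases hsub hx with rfl | hx'
          · exact Set.mem_singleton _
          · rw [Set.mem_singleton_iff.mp hx'] at hx; exact absurd hx h3
        · intro hx
          rw [Set.mem_singleton_iff.mp hx]; exact h0
      rw [hZ] at hret
      exact not_retract_zero hret
  · have hZ : Z = {p3} := by
      ext x
      constructor
      · intro hx
        rcases hsub hx with rfl | hx'
        · exact absurd hx h0
        · exact hx'
      · intro hx
        rw [Set.mem_singleton_iff.mp hx]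
        obtain ⟨z, hz⟩ := hne
        rcases hsub hz with rfl | hz'
        · exact absurd hz h0
        · rw [Set.mem_singleton_iff.mp hz'] at hz; exact hz
    rw [hZ] at hret
    exact not_retract_three hret

/-- **The question has a negative answer.** There is a finite poset with two minimal relating
retracts that are not order-isomorphic. -/
theorem result :
    ∃ (X : Type) (_ : PartialOrder X) (_ : Finite X) (Y Z : Set X),
      IsMinimalRelatingRetract Y ∧ IsMinimalRelatingRetract Z ∧ IsEmpty (Y ≃o Z) := by
  refine ⟨P5, inferInstance, inferInstance, {p4}, {p0, p3}, top_minimal, chain_minimal, ⟨?_⟩⟩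
  intro e
  have h1 : Subsingleton (({p4} : Set P5)) := by
    constructor
    rintro ⟨a, ha⟩ ⟨b, hb⟩
    apply Subtype.ext
    show a = b
    rw [Set.mem_singleton_iff.mp ha, Set.mem_singleton_iff.mp hb]
  have h2 : (⟨p0, by simp⟩ : ({p0, p3} : Set P5)) = ⟨p3, by simp⟩ := by
    have := h1.elim (e.symm ⟨p0, by simp⟩) (e.symm ⟨p3, by simp⟩)
    exact e.symm.injective this
  have h3 : p0 = p3 := congrArg Subtype.val h2
  exact absurd h3 (by decide)

end Pool.Agent.Results.MP_33f3d1_co.FivePoint
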